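import Pool.Agent.H43.DPC.Targets

/-!
# GRO: integrability of a homogeneous function against Schwartz functions
-/

open MeasureTheory SchwartzMap Filter Topology Set Metric
open scoped ENNReal ContDiff

namespace Pool.Agent.H43.DPC

noncomputable section

theorem GRO_one_le_prod {ι : Type} (s : Finset ι) (g : ι → ℝ) (h : ∀ i ∈ s, 1 ≤ g i) :
    1 ≤ ∏ i ∈ s, g i := by
  calc (1 : ℝ) = ∏ _i ∈ s, (1 : ℝ) := by rw [Finset.prod_const_one]
    _ ≤ ∏ i ∈ s, g i := Finset.prod_le_prod (fun _ _ => zero_le_one) h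

theorem GRO_one (d N : ℕ) (f : S d) : ∃ C : ℝ, 0 ≤ C ∧ ∀ x, |f x| * (1 + ‖x‖) ^ N ≤ C := by
  refine ⟨2 ^ N * (Finset.Iic (N, 0)).sup (fun m => SchwartzMap.seminorm ℝ m.1 m.2) f,
    by positivity, fun x => ?_⟩
  have h := SchwartzMap.one_add_le_sup_seminorm_apply (𝕜 := ℝ) (m := (N, 0)) (k := N) (n := 0)
    le_rfl le_rfl f x
  rw [norm_iteratedFDeriv_zero, Real.norm_eq_abs] at h
  rw [mul_comm]
  exact h

/-- decay of a product of Schwartz functions -/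
theorem GRO_decay (d n N : ℕ) (f : Fin n → S d) : ∃ C : ℝ, 0 ≤ C ∧
    ∀ x : Fin n → V d, |∏ i, f i (x i)| * (1 + ‖x‖) ^ N ≤ C := by
  choose C hC0 hC using fun i => GRO_one d N (f i)
  refine ⟨∏ i, C i, Finset.prod_nonneg fun i _ => hC0 i, fun x => ?_⟩
  have hx1 : ∀ i, 1 ≤ 1 + ‖x i‖ := fun i => by
    have := norm_nonneg (x i)
    linarith
  have hp : 1 ≤ ∏ i, (1 + ‖x i‖) := GRO_one_le_prod _ _ fun i _ => hx1 i
  have h1 : 1 + ‖x‖ ≤ ∏ i, (1 + ‖x i‖) := by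
    have h2 : ‖x‖ ≤ ∏ i, (1 + ‖x i‖) - 1 := by
      rw [pi_norm_le_iff_of_nonneg (by linarith)]
      intro i
      have h3 := Finset.mul_prod_erase Finset.univ (fun i => 1 + ‖x i‖) (Finset.mem_univ i)
      have h4 : 1 ≤ ∏ j ∈ Finset.univ.erase i, (1 + ‖x j‖) :=
        GRO_one_le_prod _ _ fun j _ => hx1 j
      rw [← h3]
      have := norm_nonneg (x i)
      nlinarith
    linarith
  calc |∏ i, f i (x i)| * (1 + ‖x‖) ^ N ≤ (∏ i, |f i (x i)|) * (∏ i, (1 + ‖x i‖)) ^ N := by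
        rw [Finset.abs_prod]
        refine mul_le_mul_of_nonneg_left (pow_le_pow_left₀ (by positivity) h1 N)
          (Finset.prod_nonneg fun i _ => abs_nonneg _)
    _ = ∏ i, (|f i (x i)| * (1 + ‖x i‖) ^ N) := by
        rw [← Finset.prod_pow, ← Finset.prod_mul_distrib]
    _ ≤ ∏ i, C i := Finset.prod_le_prod (fun i _ => by positivity) fun i _ => hC i (x i)

theorem GRO_diag_smul (d n : ℕ) (t : ℝ) (ht : 0 < t) (x : Fin n → V d) :
    t • x ∈ Diag d n ↔ x ∈ Diag d n := by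
  unfold Diag
  constructor
  · rintro ⟨i, j, hij, h⟩
    refine ⟨i, j, hij, ?_⟩
    exact smul_right_injective _ ht.ne' h
  · rintro ⟨i, j, hij, h⟩
    refine ⟨i, j, hij, ?_⟩
    change t • x i = t • x j
    rw [h]

/-- scaling of the integrals over balls -/
theorem GRO_scale (d n : ℕ) (hcl : IsClosed (Diag d n)) (s : (Fin n → V d) → ℝ) (b : ℝ)
    (hs : ∀ (t : ℝ) (x : Fin n → V d), 0 < t → x ∉ Diag d n → s (t • x) = t ^ b * s x)
    (r : ℝ) (hr : 0 < r) :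
    ∫⁻ x in (closedBall (0 : Fin n → V d) r ∩ (Diag d n)ᶜ), ‖s x‖ₑ =
      ENNReal.ofReal (r ^ (Module.finrank ℝ (Fin n → V d)) * r ^ b) *
        ∫⁻ x in (closedBall (0 : Fin n → V d) 1 ∩ (Diag d n)ᶜ), ‖s x‖ₑ := by
  set D : ℕ := Module.finrank ℝ (Fin n → V d) with hD
  have hm : ∀ ρ : ℝ, MeasurableSet (closedBall (0 : Fin n → V d) ρ ∩ (Diag d n)ᶜ) := fun ρ =>
    measurableSet_closedBall.inter hcl.measurableSet.compl
  have hrD : 0 < r ^ D := pow_pos hr D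
  have hrb : 0 < r ^ b := Real.rpow_pos_of_pos hr b
  set g : (Fin n → V d) → ℝ≥0∞ :=
    (closedBall (0 : Fin n → V d) r ∩ (Diag d n)ᶜ).indicator (fun x => ‖s x‖ₑ) with hg
  have h1 : ∫⁻ x, g x ∂(Measure.map (fun x : Fin n → V d => r • x) volume) =
      ∫⁻ x, g (r • x) :=
    (Homeomorph.smulOfNeZero r hr.ne').measurableEmbedding.lintegral_map g
  rw [Measure.map_addHaar_smul volume hr.ne', lintegral_smul_measure, ← hD] at h1
  have h2 : ∀ x, g (r • x) = (closedBall (0 : Fin n → V d) 1 ∩ (Diag d n)ᶜ).indicator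
      (fun x => ENNReal.ofReal (r ^ b) * ‖s x‖ₑ) x := by
    intro x
    have e1 : r • x ∈ closedBall (0 : Fin n → V d) r ↔ x ∈ closedBall (0 : Fin n → V d) 1 := by
      rw [mem_closedBall_zero_iff, mem_closedBall_zero_iff, norm_smul, Real.norm_eq_abs,
        abs_of_pos hr]
      constructor
      · intro h
        nlinarith
      · intro h
        nlinarith
    have e2 := GRO_diag_smul d n r hr x
    rw [hg]
    by_cases hx : x ∈ closedBall (0 : Fin n → V d) 1 ∩ (Diag d n)ᶜ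
    · have hx' : r • x ∈ closedBall (0 : Fin n → V d) r ∩ (Diag d n)ᶜ :=
        ⟨e1.2 hx.1, fun h => hx.2 (e2.1 h)⟩
      rw [indicator_of_mem hx, indicator_of_mem hx', hs r x hr hx.2, enorm_mul,
        Real.enorm_of_nonneg hrb.le]
    · have hx' : r • x ∉ closedBall (0 : Fin n → V d) r ∩ (Diag d n)ᶜ := fun h =>
        hx ⟨e1.1 h.1, fun h' => h.2 (e2.2 h')⟩
      rw [indicator_of_notMem hx, indicator_of_notMem hx']
  simp_rw [h2] at h1
  rw [lintegral_indicator (hm 1), lintegral_const_mul' _ _ ENNReal.ofReal_ne_top, hg,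
    lintegral_indicator (hm r)] at h1
  rw [ENNReal.ofReal_mul hrD.le, mul_assoc, ← h1, smul_eq_mul, ← mul_assoc,
    ← ENNReal.ofReal_mul hrD.le]
  have h3 : r ^ D * |(r ^ D)⁻¹| = 1 := by
    rw [abs_of_pos (inv_pos.2 hrD)]
    exact mul_inv_cancel₀ hrD.ne'
  rw [h3, ENNReal.ofReal_one, one_mul]

/-- the shells cover the space -/
theorem GRO_cover (d n : ℕ) (x : Fin n → V d) :
    ∃ j : ℕ, ‖x‖ ≤ 2 ^ j ∧ (2 : ℝ) ^ j ≤ 2 * (1 + ‖x‖) := by
  rcases le_total ‖x‖ 1 with h | h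
  · exact ⟨0, by simpa using h, by have := norm_nonneg x; simp; linarith⟩
  · obtain ⟨j, h1, h2⟩ := exists_nat_pow_near h (show (1 : ℝ) < 2 by norm_num)
    exact ⟨j + 1, h2.le, by rw [pow_succ]; linarith⟩

theorem GRO (hWSP : T_WSP) : T_GRO := by
  intro d n s hsc hs2 b hsb f
  have hcl := hWSP.isClosed_Diag d n
  have hmc : MeasurableSet (Diag d n)ᶜ := hcl.measurableSet.compl
  set D : ℕ := Module.finrank ℝ (Fin n → V d) with hD
  have hfc : Continuous fun x : Fin n → V d => ∏ i, f i (x i) :=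
    continuous_finsetProd _ fun i _ => (f i).continuous.comp (continuous_apply i)
  have hmeas : AEStronglyMeasurable (fun x : Fin n → V d => s x * ∏ i, f i (x i))
      (volume.restrict (Diag d n)ᶜ) :=
    (hsc.mul hfc.continuousOn).aestronglyMeasurable hmc
  refine ⟨hmeas, ?_⟩
  -- the integral over the unit ball
  set I1 : ℝ≥0∞ := ∫⁻ x in (closedBall (0 : Fin n → V d) 1 ∩ (Diag d n)ᶜ), ‖s x‖ₑ with hI1
  have hI1t : I1 < ⊤ := by
    have h1 := (hs2.integrableOn_isCompact (isCompact_closedBall (0 : Fin n → V d) 1)).2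
    unfold HasFiniteIntegral at h1
    rw [Measure.restrict_restrict measurableSet_closedBall] at h1
    exact h1
  -- the exponent
  obtain ⟨N, hN⟩ := exists_nat_gt ((D : ℝ) + b)
  obtain ⟨C, hC0, hC⟩ := GRO_decay d n N f
  set q : ℝ := 2 ^ D * 2 ^ b / 2 ^ N with hq
  have hq0 : 0 ≤ q := by positivity
  have hq1 : q < 1 := by
    rw [hq, div_lt_one (by positivity)]
    have h1 : (2 : ℝ) ^ D * 2 ^ b = 2 ^ ((D : ℝ) + b) := by
      rw [Real.rpow_add (by norm_num), Real.rpow_natCast]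
    rw [h1, ← Real.rpow_natCast 2 N]
    exact Real.rpow_lt_rpow_of_exponent_lt (by norm_num) hN
  -- the shells
  set T : ℕ → Set (Fin n → V d) := fun j =>
    (closedBall (0 : Fin n → V d) (2 ^ j) ∩ (Diag d n)ᶜ) ∩ {x | (2 : ℝ) ^ j ≤ 2 * (1 + ‖x‖)}
    with hT
  have hTm : ∀ j, MeasurableSet (T j) := fun j =>
    (measurableSet_closedBall.inter hmc).inter
      (isClosed_le continuous_const (by fun_prop)).measurableSet
  have hcov : (Diag d n)ᶜ ⊆ ⋃ j, T j := by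
    intro x hx
    obtain ⟨j, h1, h2⟩ := GRO_cover d n x
    exact mem_iUnion.2 ⟨j, ⟨mem_closedBall_zero_iff.2 h1, hx⟩, h2⟩
  have hshell : ∀ j, ∫⁻ x in T j, ‖s x * ∏ i, f i (x i)‖ₑ ≤
      ENNReal.ofReal (C * 2 ^ N * q ^ j) * I1 := by
    intro j
    have h2j : (0 : ℝ) < 2 ^ j := by positivity
    have hb : ∀ x ∈ T j, ‖s x * ∏ i, f i (x i)‖ₑ ≤
        ENNReal.ofReal (C * 2 ^ N / (2 ^ j) ^ N) * ‖s x‖ₑ := by
      intro x hx
      rw [enorm_mul, mul_comm]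
      refine mul_le_mul_left ?_ _
      rw [← ofReal_norm, Real.norm_eq_abs]
      refine ENNReal.ofReal_le_ofReal ?_
      have h1 := hC x
      have h3 : (2 : ℝ) ^ j ≤ 2 * (1 + ‖x‖) := hx.2
      rw [le_div_iff₀ (by positivity)]
      have h4 : ((2 : ℝ) ^ j) ^ N ≤ (2 * (1 + ‖x‖)) ^ N := pow_le_pow_left₀ h2j.le h3 N
      calc |∏ i, f i (x i)| * (2 ^ j) ^ N ≤ |∏ i, f i (x i)| * (2 * (1 + ‖x‖)) ^ N :=
            mul_le_mul_of_nonneg_left h4 (abs_nonneg _)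
        _ = (|∏ i, f i (x i)| * (1 + ‖x‖) ^ N) * 2 ^ N := by rw [mul_pow]; ring
        _ ≤ C * 2 ^ N := mul_le_mul_of_nonneg_right h1 (by positivity)
    calc ∫⁻ x in T j, ‖s x * ∏ i, f i (x i)‖ₑ
        ≤ ∫⁻ x in T j, ENNReal.ofReal (C * 2 ^ N / (2 ^ j) ^ N) * ‖s x‖ₑ :=
          setLIntegral_mono' (hTm j) hb
      _ = ENNReal.ofReal (C * 2 ^ N / (2 ^ j) ^ N) * ∫⁻ x in T j, ‖s x‖ₑ :=
          lintegral_const_mul' _ _ ENNReal.ofReal_ne_top
      _ ≤ ENNReal.ofReal (C * 2 ^ N / (2 ^ j) ^ N) *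
            ∫⁻ x in (closedBall (0 : Fin n → V d) (2 ^ j) ∩ (Diag d n)ᶜ), ‖s x‖ₑ :=
          mul_le_mul_right (lintegral_mono_set inter_subset_left) _
      _ = ENNReal.ofReal (C * 2 ^ N * q ^ j) * I1 := by
          rw [GRO_scale d n hcl s b hsb (2 ^ j) h2j, ← hD, ← hI1, ← mul_assoc,
            ← ENNReal.ofReal_mul (by positivity)]
          congr 2
          have h5 : ((2 : ℝ) ^ j) ^ b = (2 ^ b) ^ j := by
            rw [← Real.rpow_natCast 2 j, ← Real.rpow_mul (by norm_num), mul_comm,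
              Real.rpow_mul (by norm_num), Real.rpow_natCast]
          rw [h5, hq, div_pow, mul_pow, ← pow_mul, ← pow_mul, ← pow_mul, ← pow_mul,
            mul_comm j N, mul_comm j D]
          field_simp
  unfold HasFiniteIntegral
  calc ∫⁻ x in (Diag d n)ᶜ, ‖s x * ∏ i, f i (x i)‖ₑ
      ≤ ∫⁻ x in ⋃ j, T j, ‖s x * ∏ i, f i (x i)‖ₑ := lintegral_mono_set hcov
    _ ≤ ∑' j, ∫⁻ x in T j, ‖s x * ∏ i, f i (x i)‖ₑ := lintegral_iUnion_le _ _
    _ ≤ ∑' j, ENNReal.ofReal (C * 2 ^ N * q ^ j) * I1 := ENNReal.tsum_le_tsum hshell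
    _ = (∑' j, ENNReal.ofReal (C * 2 ^ N * q ^ j)) * I1 := ENNReal.tsum_mul_right
    _ = ENNReal.ofReal (∑' j : ℕ, C * 2 ^ N * q ^ j) * I1 := by
        rw [ENNReal.ofReal_tsum_of_nonneg (fun j => by positivity)
          ((summable_geometric_of_lt_one hq0 hq1).mul_left _)]
    _ < ⊤ := ENNReal.mul_lt_top ENNReal.ofReal_lt_top hI1t

end

end Pool.Agent.H43.DPC
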